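import Pool.Agent.N290.RK.Stm2

set_option autoImplicit false

/-!
# Project RK: estimates of the weight (XA)
-/

open Complex MeasureTheory Set Filter Topology

namespace Pool.Agent.N327.RK

open Pool.Agent.N290.RJ Pool.Agent.N290.RK

variable {d : ℕ}

theorem N_cd : ContDiff ℝ 1 (N : E d → ℝ) := by
  unfold N
  refine ContDiff.add ?_ (ContDiff.sum fun i _ => ?_)
  · exact contDiff_fst.norm_sq ℝ
  · have h1 : ContDiff ℝ 1 (fun z : E d => z.2 i) := (contDiff_apply ℝ ℂ i).comp contDiff_snd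
    exact h1.norm_sq ℝ

theorem N_fderiv (z ξ : E d) : fderiv ℝ (N : E d → ℝ) z ξ = 2 * (ip z ξ).re := by
  have h1 : HasFDerivAt (N : E d → ℝ) (fderiv ℝ N z) (z + (0 : ℝ) • ξ) := by
    rw [zero_smul, add_zero]
    exact (N_cd.differentiable (by norm_num) z).hasFDerivAt
  have h2 : HasDerivAt (fun s : ℝ => z + s • ξ) ξ 0 := by
    have := ((hasDerivAt_id (0 : ℝ)).smul_const ξ).const_add z
    rw [one_smul] at this
    exact this
  have h3 : HasDerivAt (fun s : ℝ => N (z + s • ξ)) (fderiv ℝ (N : E d → ℝ) z ξ) 0 := by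
    have h3' := HasFDerivAt.comp_hasDerivAt (0 : ℝ) h1 h2
    exact h3'
  have h4 : (fun s : ℝ => N (z + s • ξ)) =
      fun s => N z + (s ^ 2 * N ξ + s * (2 * (ip z ξ).re)) := by
    funext s
    rw [N_add, N_smul]
    have h5 : (ip z (s • ξ)).re = s * (ip z ξ).re := by
      rw [← ip_conj, Complex.conj_re]
      have h6 : s • ξ = (s : ℂ) • ξ := by
        ext <;> simp
      rw [h6, ip_smul_left, Complex.re_ofReal_mul, ← ip_conj, Complex.conj_re]
    rw [h5]
    ring
  have h5 : HasDerivAt (fun s : ℝ => N z + (s ^ 2 * N ξ + s * (2 * (ip z ξ).re)))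
      (((2 : ℕ) : ℝ) * 0 ^ (2 - 1) * N ξ + 1 * (2 * (ip z ξ).re)) 0 :=
    (((hasDerivAt_pow 2 (0 : ℝ)).mul_const (N ξ)).add
      ((hasDerivAt_id (0 : ℝ)).mul_const (2 * (ip z ξ).re))).const_add (N z)
  rw [h4] at h3
  rw [h3.unique h5]
  norm_num

/-- the argument of the weight -/
theorem al_eq (A : ℝ) (h : ℝ → ℝ) (j : ℕ) :
    al (d := d) A h j = fun z => A * h (1 - rad j ^ 2 * N z) := by
  funext z
  unfold al
  rw [N_smul]

theorem ip_le {z : E d} (hz : z ∈ B d) (ξ : E d) : |(ip z ξ).re| ≤ (1 - N z) * len z ξ := by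
  have h1 : 0 < 1 - N z := sub_pos.2 hz
  have h2 : |(ip z ξ).re| ≤ ‖ip ξ z‖ := by
    rw [← ip_conj, Complex.conj_re]
    exact Complex.abs_re_le_norm _
  refine h2.trans ?_
  have h3 : ‖ip ξ z‖ / (1 - N z) ≤ len z ξ := by
    unfold len
    apply Real.le_sqrt_of_sq_le
    unfold len2
    rw [div_pow]
    have : 0 ≤ N ξ / (1 - N z) := div_nonneg (N_nonneg _) h1.le
    linarith
  rw [div_le_iff₀ h1] at h3
  linarith

theorem XA_proof (d : ℕ) : Pool.Agent.N290.RK.XA d := by
  intro K C A h ω hK hC hA hω hpos h1 h2 h3 h4 j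
  obtain ⟨hmono, h01, hslow⟩ := hω
  have hr0 : ∀ i : ℕ, 0 ≤ rad i := rad_nonneg
  have hr1 : ∀ i : ℕ, rad i < 1 := rad_lt_one
  have hr2 : ∀ i : ℕ, rad i ^ 2 ≤ 1 := fun i => pow_le_one₀ (hr0 i) (hr1 i).le
  have hg0 : ∀ (i : ℕ) (z : E d), z ∈ B d → 1 - N z ≤ 1 - rad i ^ 2 * N z := by
    intro i z hz
    have := mul_le_mul_of_nonneg_right (hr2 i) (N_nonneg z)
    linarith
  have hgpos : ∀ (i : ℕ) (z : E d), z ∈ B d → 0 < 1 - rad i ^ 2 * N z := by
    intro i z hz
    have h5 : 0 < 1 - N z := sub_pos.2 hz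
    exact lt_of_lt_of_le h5 (hg0 i z hz)
  have hg1 : ∀ (i : ℕ) (z : E d), 1 - rad i ^ 2 * N z ≤ 1 := by
    intro i z
    have : 0 ≤ rad i ^ 2 * N z := mul_nonneg (sq_nonneg _) (N_nonneg z)
    linarith
  refine ⟨?_, ?_⟩
  · rw [al_eq]
    refine contDiffOn_const.mul ?_
    refine h1.comp (t := Ioi 0) ?_ ?_
    · exact (contDiff_const.sub (contDiff_const.mul N_cd)).contDiffOn
    · intro z hz
      exact hgpos j z hz
  intro z hz
  have hz0 : 0 < 1 - N z := sub_pos.2 hz
  have hn0 : 0 ≤ nm z := nm_nonneg z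
  have hn1 : nm z < 1 := mem_B_nm.1 hz
  have hNn : N z = nm z ^ 2 := (nm_sq z).symm
  obtain ⟨n, hn⟩ : ∃ n, n = nm z := ⟨_, rfl⟩
  obtain ⟨a, ha⟩ : ∃ a, a = ω (1 - N z) := ⟨_, rfl⟩
  have ha0 : 0 < a := by rw [ha]; exact hpos _ hz0
  obtain ⟨u, hu⟩ : ∃ u, u = uu z (rad j) := ⟨_, rfl⟩
  have hu0 : 0 < u := by rw [hu]; exact uu_pos hz (hr1 j).le
  obtain ⟨r, hr⟩ : ∃ r, r = rad j := ⟨_, rfl⟩
  have hrr0 : 0 ≤ r := by rw [hr]; exact hr0 j
  have hrr1 : r < 1 := by rw [hr]; exact hr1 j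
  have hnn0 : 0 ≤ n := by rw [hn]; exact hn0
  have hnn1 : n < 1 := by rw [hn]; exact hn1
  have hrn : r * n ≤ n := by nlinarith
  have hrn0 : 0 ≤ r * n := mul_nonneg hrr0 hnn0
  obtain ⟨t, ht⟩ : ∃ t, t = 1 - rad j ^ 2 * N z := ⟨_, rfl⟩
  have ht0 : 0 < t := by rw [ht]; exact hgpos j z hz
  have ht1 : t ≤ 1 := by rw [ht]; exact hg1 j z
  have htz : 1 - N z ≤ t := by rw [ht]; exact hg0 j z hz
  have htf : t = (1 - r * n) * (1 + r * n) := by
    rw [ht, hNn, ← hr, ← hn]; ring
  have hzf : 1 - N z = (1 - n) * (1 + n) := by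
    rw [hNn, ← hn]; ring
  have hn1' : 0 < 1 - n := by linarith
  have hrn1 : 0 < 1 - r * n := by linarith
  have hu8 : u ^ 8 = (1 - n) / (1 - r * n) := by
    rw [hu, hn, hr]; exact uu_pow hz (hr1 j).le
  have hal : al A h j z = A * h t := by rw [al_eq, ht]
  have hωt : ω t ≤ K * (a / u) := by
    have h5 := hslow t (1 - N z) hz0 htz ht1
    rw [← ha] at h5
    have h6 : (t / (1 - N z)) ^ (1 / 8 : ℝ) ≤ u⁻¹ := by
      have h7 : t / (1 - N z) ≤ (1 - r * n) / (1 - n) := by
        rw [htf, hzf, div_le_div_iff₀ (by positivity) hn1']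
        have : (1 - r * n) * (1 - n) * (1 + r * n) ≤ (1 - r * n) * (1 - n) * (1 + n) :=
          mul_le_mul_of_nonneg_left (by linarith) (by positivity)
        linarith
      have h8 := uu_inv hz (hr1 j).le
      rw [← hu, ← hn, ← hr] at h8
      rw [← h8]
      exact Real.rpow_le_rpow (by positivity) h7 (by norm_num)
    calc ω t ≤ K * (t / (1 - N z)) ^ (1 / 8 : ℝ) * a := h5
      _ ≤ K * u⁻¹ * a := by gcongr
      _ = K * (a / u) := by rw [div_eq_mul_inv]; ring
  have hht := h3 t ht0 ht1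
  have hωt0 : 0 < ω t := hpos t ht0
  have hht0 : 0 < h t := lt_of_lt_of_le hωt0 hht.1
  have hhu : h t ≤ C * (K * (a / u)) :=
    hht.2.trans (mul_le_mul_of_nonneg_left hωt (by linarith))
  rw [← hu, ← ha]
  refine ⟨?_, ?_, ?_, ?_, ?_, ?_, ?_⟩
  · rw [hal]; positivity
  · rw [hal]
    apply mul_le_mul_of_nonneg_left _ hA.le
    rw [ha]
    exact (hmono htz).trans hht.1
  · rw [hal]
    calc A * h t ≤ A * (C * (K * (a / u))) := mul_le_mul_of_nonneg_left hhu hA.le
      _ = _ := by ring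
  · rw [hal]
    apply mul_le_mul_of_nonneg_left _ hA.le
    calc h t ≤ C * ω t := hht.2
      _ ≤ C * 1 := mul_le_mul_of_nonneg_left (h01 t).2 (by linarith)
      _ = C := mul_one C
  · rw [al_eq, al_eq]
    apply mul_le_mul_of_nonneg_left _ hA.le
    apply h2 _ _ (hgpos (j + 1) z hz)
    have h5 : rad j ^ 2 ≤ rad (j + 1) ^ 2 := by
      apply pow_le_pow_left₀ (hr0 j)
      have := rad_succ j
      have : (0 : ℝ) < (1 / 2) ^ (j + 1) := by positivity
      linarith
    have := mul_le_mul_of_nonneg_right h5 (N_nonneg z)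
    linarith
  · -- the difference
    obtain ⟨r', hr'⟩ : ∃ r', r' = rad (j + 1) := ⟨_, rfl⟩
    have hrr : r ≤ r' := by
      have h6 := rad_succ j
      have : (0 : ℝ) < (1 / 2) ^ (j + 1) := by positivity
      rw [hr, hr']
      linarith
    have hr'1 : r' < 1 := by rw [hr']; exact hr1 _
    have hr'0 : 0 ≤ r' := by rw [hr']; exact hr0 _
    obtain ⟨t', ht'⟩ : ∃ t', t' = 1 - rad (j + 1) ^ 2 * N z := ⟨_, rfl⟩
    have ht'0 : 0 < t' := by rw [ht']; exact hgpos (j + 1) z hz
    have ht'f : t' = (1 - r' * n) * (1 + r' * n) := by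
      rw [ht', hNn, ← hr', ← hn]; ring
    have hr'n : r' * n ≤ n := by nlinarith
    have hr'n0 : 0 ≤ r' * n := mul_nonneg hr'0 hnn0
    have hr'n1 : 0 < 1 - r' * n := by linarith
    have hrnr : r * n ≤ r' * n := mul_le_mul_of_nonneg_right hrr hnn0
    have htt : t - t' = (r' * n - r * n) * (r' * n + r * n) := by
      rw [htf, ht'f]; ring
    have htt0 : t' ≤ t := by
      have : 0 ≤ (r' * n - r * n) * (r' * n + r * n) := by
        apply mul_nonneg <;> linarith
      linarith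
    have hst : st j z = (r' - r) * n / (1 - r' * n) := by
      unfold st
      rw [hr, hr', hn]
    have hst0 : 0 ≤ st j z := by
      rw [hst]
      apply div_nonneg _ hr'n1.le
      apply mul_nonneg _ hnn0
      linarith
    have hmv : h t - h t' ≤ C * h t / t' * (t - t') := by
      have h5 : ∀ x ∈ Icc t' t, DifferentiableAt ℝ h x := by
        intro x hx
        have hx0 : 0 < x := lt_of_lt_of_le ht'0 hx.1
        exact (h1.differentiableOn (by norm_num)).differentiableAt (Ioi_mem_nhds hx0)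
      have h6 := Convex.norm_image_sub_le_of_norm_deriv_le (f := h) (C := C * h t / t')
        (s := Icc t' t) (x := t') (y := t) h5 (by
          intro x hx
          have hx0 : 0 < x := lt_of_lt_of_le ht'0 hx.1
          have h7 := h4 x hx0 (hx.2.trans ht1)
          rw [abs_mul, abs_of_pos hx0] at h7
          rw [Real.norm_eq_abs, le_div_iff₀ ht'0]
          have h8 : h x ≤ h t := h2 x t hx0 hx.2
          calc |deriv h x| * t' ≤ |deriv h x| * x := mul_le_mul_of_nonneg_left hx.1 (abs_nonneg _)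
            _ = x * |deriv h x| := mul_comm _ _
            _ ≤ C * h x := h7
            _ ≤ C * h t := mul_le_mul_of_nonneg_left h8 (by linarith)) (convex_Icc _ _)
        (left_mem_Icc.2 htt0) (right_mem_Icc.2 htt0)
      rw [Real.norm_eq_abs, Real.norm_eq_abs, abs_of_nonneg (sub_nonneg.2 htt0)] at h6
      exact (le_abs_self _).trans h6
    have hq : (t - t') / t' ≤ 2 * st j z := by
      rw [div_le_iff₀ ht'0, hst, htt, ht'f]
      have h5 : 2 * ((r' - r) * n / (1 - r' * n)) * ((1 - r' * n) * (1 + r' * n)) =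
          (r' * n - r * n) * (2 * (1 + r' * n)) := by
        field_simp
      rw [h5]
      apply mul_le_mul_of_nonneg_left _ (by linarith)
      linarith
    have hal' : al A h (j + 1) z = A * h t' := by rw [al_eq, ht']
    rw [hal, hal']
    have h6 : A * h t - A * h t' = A * (h t - h t') := by ring
    rw [h6]
    calc A * (h t - h t') ≤ A * (C * h t / t' * (t - t')) := by gcongr
      _ = A * C * (h t * ((t - t') / t')) := by
          field_simp
      _ ≤ A * C * ((C * (K * (a / u))) * (2 * st j z)) := by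
          gcongr
      _ = 2 * A * C ^ 2 * K * (a / u) * st j z := by ring
  · -- the derivative
    intro ξ
    have hdh : HasDerivAt h (deriv h t) t :=
      ((h1.differentiableOn (by norm_num)).differentiableAt (Ioi_mem_nhds ht0)).hasDerivAt
    have hNd : HasFDerivAt (N : E d → ℝ) (fderiv ℝ N z) z :=
      (N_cd.differentiable (by norm_num) z).hasFDerivAt
    have hgd : HasFDerivAt (fun w : E d => 1 - rad j ^ 2 * N w) (-(rad j ^ 2 • fderiv ℝ N z)) z :=
      (hNd.const_mul (rad j ^ 2)).const_sub 1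
    have hdh' : HasDerivAt h (deriv h t) ((fun w : E d => 1 - rad j ^ 2 * N w) z) := by
      simp only
      rw [← ht]
      exact hdh
    have hcomp : HasFDerivAt (fun w : E d => h (1 - rad j ^ 2 * N w))
        (deriv h t • (-(rad j ^ 2 • fderiv ℝ N z))) z := hdh'.comp_hasFDerivAt z hgd
    have hall : HasFDerivAt (al (d := d) A h j)
        (A • (deriv h t • (-(rad j ^ 2 • fderiv ℝ N z)))) z := by
      rw [al_eq]
      exact hcomp.const_mul A
    rw [hall.fderiv]
    have hval : (A • (deriv h t • (-(rad j ^ 2 • fderiv ℝ (N : E d → ℝ) z)))) ξ =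
        -(A * (deriv h t * (r ^ 2 * (2 * (ip z ξ).re)))) := by
      simp only [smul_apply, neg_apply, smul_eq_mul]
      rw [N_fderiv, hr]
      ring
    rw [hval, abs_neg, abs_mul, abs_mul, abs_mul, abs_mul, abs_of_pos hA, abs_of_nonneg (sq_nonneg r),
      abs_of_pos (two_pos : (0 : ℝ) < 2)]
    have h5 := h4 t ht0 ht1
    rw [abs_mul, abs_of_pos ht0] at h5
    have h6 : |deriv h t| ≤ C * h t / t := by
      rw [le_div_iff₀ ht0]; linarith
    have h7 := ip_le hz ξ
    have hl0 := len_nonneg z ξ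
    have hr2' : r ^ 2 ≤ 1 := pow_le_one₀ hrr0 hrr1.le
    have h8 : (1 - N z) / t ≤ 2 * u ^ 8 := by
      rw [hu8, htf, hzf, div_le_iff₀ (by positivity)]
      have h9 : 2 * ((1 - n) / (1 - r * n)) * ((1 - r * n) * (1 + r * n)) =
          (1 - n) * (2 * (1 + r * n)) := by
        have h10 : (1 - n) / (1 - r * n) * (1 - r * n) = 1 - n := div_mul_cancel₀ _ hrn1.ne'
        calc 2 * ((1 - n) / (1 - r * n)) * ((1 - r * n) * (1 + r * n)) =
            ((1 - n) / (1 - r * n) * (1 - r * n)) * (2 * (1 + r * n)) := by ring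
          _ = _ := by rw [h10]
      rw [h9]
      apply mul_le_mul_of_nonneg_left _ hn1'.le
      linarith
    calc A * (|deriv h t| * (r ^ 2 * (2 * |(ip z ξ).re|)))
        ≤ A * (C * h t / t * (1 * (2 * ((1 - N z) * len z ξ)))) := by gcongr
      _ = 2 * A * C * (h t * (((1 - N z) / t) * len z ξ)) := by
          field_simp
      _ ≤ 2 * A * C * ((C * (K * (a / u))) * ((2 * u ^ 8) * len z ξ)) := by gcongr
      _ = 4 * A * C ^ 2 * K * a * u ^ 7 * len z ξ := by
          field_simp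
          ring

end Pool.Agent.N327.RK
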